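import Pool.Agent.H95.ILV.Targets

/-!
# MP_de9001_an, row KD of ilv_modules: the gap property of the explicit levels
-/

set_option autoImplicit false

open MeasureTheory AddCircle Filter Topology Pool.Agent.H87.Synth Pool.Agent.H23.Synth
  Pool.Agent.H95.ILV

namespace Pool.Agent.H54.ILV

namespace KD

theorem three (x y z w : ℤ) (hx : 1 ≤ x) (hy : 1 ≤ y) (hz : 1 ≤ z) (h1 : x + y + z = w)
    (h2 : x ^ 2 + y ^ 2 + z ^ 2 = w ^ 2) : False := by
  subst h1
  have h3 : 0 < x * y := by positivity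
  have h4 : 0 < y * z := by positivity
  have h5 : 0 < x * z := by positivity
  nlinarith

theorem pair (x y z w : ℤ) (h1 : x + y = z + w) (h2 : x ^ 2 + y ^ 2 = z ^ 2 + w ^ 2) :
    (x = z ∧ y = w) ∨ (x = w ∧ y = z) := by
  have h3 : y = z + w - x := by linarith
  have h4 : (x - z) * (x - w) = 0 := by
    rw [h3] at h2
    nlinarith
  rcases mul_eq_zero.1 h4 with h5 | h5
  · left
    constructor <;> linarith
  · right
    constructor <;> linarith

theorem core (A B C D : ℤ) (hA : 1 ≤ A) (hB : 1 ≤ B) (hC : 1 ≤ C) (hD : 1 ≤ D)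
    (e1 e2 e3 e4 : Bool) (hV : sg e1 * A + sg e2 * B - sg e3 * C - sg e4 * D = 0)
    (hU : sg e1 * A ^ 2 + sg e2 * B ^ 2 - sg e3 * C ^ 2 - sg e4 * D ^ 2 = 0) :
    (A = C ∧ e1 = e3 ∧ B = D ∧ e2 = e4) ∨ (A = D ∧ e1 = e4 ∧ B = C ∧ e2 = e3) ∨
      (B = A ∧ e2 = !e1 ∧ D = C ∧ e4 = !e3) := by
  have h1 : sg true = 1 := rfl
  have h2 : sg false = -1 := rfl
  rcases e1 with _ | _ <;> rcases e2 with _ | _ <;> rcases e3 with _ | _ <;>
    rcases e4 with _ | _ <;> (try rw [h2] at hV hU) <;> (try rw [h1] at hV hU) <;>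
    first
    | (exfalso; linarith)
    | exact (three B C D A hB hC hD (by linarith) (by linarith)).elim
    | exact (three A C D B hA hC hD (by linarith) (by linarith)).elim
    | exact (three A B D C hA hB hD (by linarith) (by linarith)).elim
    | exact (three A B C D hA hB hC (by linarith) (by linarith)).elim
    | (have h3 := pair A B C D (by linarith) (by linarith)
       simp
       omega)
    | (have h3 := pair A C B D (by linarith) (by linarith)
       simp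
       omega)
    | (have h3 := pair A D B C (by linarith) (by linarith)
       simp
       omega)

theorem abs_sg (e : Bool) : |sg e| = 1 := by
  cases e <;> simp [sg]

theorem bound (x1 x2 x3 x4 : ℤ) (K : ℤ) (h1 : 0 ≤ x1) (h2 : 0 ≤ x2) (h3 : 0 ≤ x3) (h4 : 0 ≤ x4)
    (k1 : 4 * x1 < K) (k2 : 4 * x2 < K) (k3 : 4 * x3 < K) (k4 : 4 * x4 < K)
    (e1 e2 e3 e4 : Bool) : |sg e1 * x1 + sg e2 * x2 - sg e3 * x3 - sg e4 * x4| < K := by
  have hs : ∀ (e : Bool) (x : ℤ), 0 ≤ x → -x ≤ sg e * x ∧ sg e * x ≤ x := by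
    intro e x hx
    cases e <;> simp [sg] <;> linarith
  have g1 := hs e1 x1 h1
  have g2 := hs e2 x2 h2
  have g3 := hs e3 x3 h3
  have g4 := hs e4 x4 h4
  rw [abs_lt]
  constructor <;> linarith

theorem gen (T H Q N : ℕ) (al be ka : ℕ → ℕ) (hk' : ∀ j, ka j = 2 ^ T * (H * al j + be j))
    (hbe : ∀ j, be j = (j + 1) ^ 2 + Q * (j + 1)) (hQ : Q = 4 * N ^ 2 + 1)
    (hH : ∀ j ≤ N, 4 * be j < H) : Gap T N ka := by
  intro a b c d ha hb hc hd e1 e2 e3 e4 hlt
  -- the integer form of the levels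
  have hk : ∀ j, (ka j : ℤ) = 2 ^ T * ((H : ℤ) * al j + be j) := by
    intro j
    rw [hk']
    push_cast
    ring
  have hpos : (0 : ℤ) < 2 ^ T := by positivity
  set X : ℤ := sg e1 * al a + sg e2 * al b - sg e3 * al c - sg e4 * al d with hX
  set Y : ℤ := sg e1 * be a + sg e2 * be b - sg e3 * be c - sg e4 * be d with hY
  have e : sg e1 * (ka a : ℤ) + sg e2 * ka b - sg e3 * ka c - sg e4 * ka d =
      2 ^ T * ((H : ℤ) * X + Y) := by
    rw [hk, hk, hk, hk, hX, hY]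
    ring
  rw [e, abs_mul, abs_of_pos hpos] at hlt
  have h0 : (H : ℤ) * X + Y = 0 := by
    by_contra hne
    have h1 : 1 ≤ |(H : ℤ) * X + Y| := Int.one_le_abs hne
    nlinarith
  have hYlt : |Y| < (H : ℤ) := by
    have hb' : ∀ j, j < N → 4 * (be j : ℤ) < H := by
      intro j hj
      exact_mod_cast hH j hj.le
    exact bound _ _ _ _ _ (Int.natCast_nonneg _) (Int.natCast_nonneg _) (Int.natCast_nonneg _)
      (Int.natCast_nonneg _) (hb' a ha) (hb' b hb) (hb' c hc) (hb' d hd) e1 e2 e3 e4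
  have hY0 : Y = 0 := by
    refine Int.eq_zero_of_abs_lt_dvd (m := (H : ℤ)) ⟨-X, by linarith⟩ hYlt
  set U : ℤ := sg e1 * ((a : ℤ) + 1) ^ 2 + sg e2 * ((b : ℤ) + 1) ^ 2 - sg e3 * ((c : ℤ) + 1) ^ 2 -
    sg e4 * ((d : ℤ) + 1) ^ 2 with hU
  set V : ℤ := sg e1 * ((a : ℤ) + 1) + sg e2 * ((b : ℤ) + 1) - sg e3 * ((c : ℤ) + 1) -
    sg e4 * ((d : ℤ) + 1) with hV
  have hYUV : Y = U + (Q : ℤ) * V := by
    rw [hY, hU, hV, hbe, hbe, hbe, hbe]
    push_cast
    ring
  have hUlt : |U| < (Q : ℤ) := by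
    have hN : ∀ j, j < N → 4 * ((j : ℤ) + 1) ^ 2 < Q := by
      intro j hj
      have h1 : ((j : ℤ) + 1) ≤ N := by exact_mod_cast hj
      have h2 : ((j : ℤ) + 1) ^ 2 ≤ (N : ℤ) ^ 2 := by gcongr
      rw [hQ]
      push_cast
      linarith
    exact bound _ _ _ _ _ (by positivity) (by positivity) (by positivity) (by positivity)
      (hN a ha) (hN b hb) (hN c hc) (hN d hd) e1 e2 e3 e4
  have hU0 : U = 0 := by
    refine Int.eq_zero_of_abs_lt_dvd (m := (Q : ℤ)) ⟨-V, by linarith⟩ hUlt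
  have hV0 : V = 0 := by
    have h1 : (Q : ℤ) * V = 0 := by linarith
    rcases mul_eq_zero.1 h1 with h2 | h2
    · have h4 : Q = 0 := by exact_mod_cast h2
      omega
    · exact h2
  have hfin := core ((a : ℤ) + 1) ((b : ℤ) + 1) ((c : ℤ) + 1) ((d : ℤ) + 1) (by omega) (by omega)
    (by omega) (by omega) e1 e2 e3 e4 hV0 hU0
  rcases hfin with ⟨h1, h2, h3, h4⟩ | ⟨h1, h2, h3, h4⟩ | ⟨h1, h2, h3, h4⟩
  · left
    exact ⟨by omega, h2, by omega, h4⟩
  · right
    left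
    exact ⟨by omega, h2, by omega, h4⟩
  · right
    right
    exact ⟨by omega, h2, by omega, h4⟩

end KD

open KD

/-- KD: the gap property. -/
theorem pf_KD (h : T_KA) : T_KD := by
  intro i
  obtain ⟨-, -, hbb⟩ := h i
  exact gen (Tt i) (Hh i) (QN i) (Nn i) (aa i) (bb i) (kk i) (fun j => by rw [kk])
    (fun j => by rw [bb]) (by rw [QN]) hbb

end Pool.Agent.H54.ILV
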