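import Pool.Agent.H95.ILV.Targets

/-!
# MP_de9001_an, row KE of ilv_modules: the number of levels
-/

set_option autoImplicit false

open MeasureTheory AddCircle Filter Topology Pool.Agent.H87.Synth Pool.Agent.H23.Synth
  Pool.Agent.H95.ILV

namespace Pool.Agent.H54.ILV

namespace KE

theorem low (T h q H a b : ℕ) (hH : H = 2 ^ h) (ha : 2 ^ q ≤ a) :
    2 ^ (T + h + q) ≤ 2 ^ T * (H * a + b) := by
  rw [pow_add, pow_add, mul_assoc, hH]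
  apply Nat.mul_le_mul_left
  calc 2 ^ h * 2 ^ q ≤ 2 ^ h * a := Nat.mul_le_mul_left _ ha
    _ ≤ 2 ^ h * a + b := Nat.le_add_right _ _

theorem upp (T h s H a b : ℕ) (hH : H = 2 ^ h) (ha : a + 1 ≤ 2 ^ s) (hb : b ≤ H) :
    2 ^ T * (H * a + b) ≤ 2 ^ (T + h + s) := by
  rw [pow_add, pow_add, mul_assoc, ← hH]
  apply Nat.mul_le_mul_left
  calc H * a + b ≤ H * a + H := Nat.add_le_add_left hb _
    _ = H * (a + 1) := by ring
    _ ≤ H * 2 ^ s := Nat.mul_le_mul_left _ ha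

theorem gen (i t m N J k0 : ℕ) (ka : ℕ → ℕ) (hmono : ∀ j, ka j < ka (j + 1)) (hm : 1 ≤ m)
    (hlow : ∀ j, 2 ^ (t + (6 * i + 110) + j / m) ≤ ka j)
    (hup0 : k0 ≤ 2 ^ (2 * t + (6 * i + 116) + (i + 26)))
    (hlow0 : 2 ^ (2 * t + (6 * i + 116)) ≤ k0)
    (hup2 : ka 2 ≤ 2 ^ (t + (6 * i + 110) + (i + 28)))
    (ht : i + 32 ≤ t) (ht2 : 2 * t ≤ 2 ^ (i + 10)) (hN : m * 2 ^ (i + 10) ≤ N)
    (hJ : J = sInf {j | k0 ≤ ka j}) :
    3 ≤ J ∧ J ≤ m * 2 ^ (i + 10) ∧ J ≤ N ∧ k0 ≤ ka J ∧ ∀ j < J, ka j < k0 := by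
  have hmem : m * (2 * t) ∈ {j | k0 ≤ ka j} := by
    have h1 := hlow (m * (2 * t))
    rw [Nat.mul_div_cancel_left _ hm] at h1
    refine (hup0.trans ?_).trans h1
    apply Nat.pow_le_pow_right (by norm_num)
    omega
  have hJle : J ≤ m * (2 * t) := by
    rw [hJ]
    exact Nat.sInf_le hmem
  have hJmem : k0 ≤ ka J := by
    rw [hJ]
    exact Nat.sInf_mem ⟨_, hmem⟩
  have hJlt : ∀ j < J, ka j < k0 := by
    intro j hj
    rw [hJ] at hj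
    by_contra hc
    exact Nat.notMem_of_lt_sInf (s := {j | k0 ≤ ka j}) hj (not_lt.1 hc)
  have hJ1 : J ≤ m * 2 ^ (i + 10) := hJle.trans (Nat.mul_le_mul_left _ ht2)
  refine ⟨?_, hJ1, hJ1.trans hN, hJmem, hJlt⟩
  by_contra hc
  have hJ2 : J ≤ 2 := by omega
  have h1 : ka J ≤ ka 2 := (strictMono_nat_of_lt_succ hmono).monotone hJ2
  have h2 : 2 ^ (2 * t + (6 * i + 116)) ≤ 2 ^ (t + (6 * i + 110) + (i + 28)) :=
    hlow0.trans (hJmem.trans (h1.trans hup2))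
  have h3 := (Nat.pow_le_pow_iff_right (by norm_num)).1 h2
  omega

theorem exp_le (i : ℕ) : i + 32 ≤ 2 ^ (i + 8) := by
  induction i with
  | zero => norm_num
  | succ i ih =>
    have h1 : 2 ^ (i + 1 + 8) = 2 * 2 ^ (i + 8) := by ring
    omega

theorem aux1 (i m : ℕ) (h : m ≤ 2 ^ (i + 24)) : m * 2 ^ (i + 10) ≤ 2 ^ (2 * i + 34) := by
  have h1 : 2 ^ (2 * i + 34) = 2 ^ (i + 24) * 2 ^ (i + 10) := by
    rw [← pow_add]
    congr 1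
    ring
  rw [h1]
  exact Nat.mul_le_mul_right _ h

theorem aux2 (i m' : ℕ) (h : m' ≤ 2 ^ (i + 1 + 24)) : m' + 1 ≤ 2 ^ (i + 26) := by
  have h1 : 2 ^ (i + 26) = 2 * 2 ^ (i + 1 + 24) := by ring
  have h2 : 1 ≤ 2 ^ (i + 1 + 24) := Nat.one_le_two_pow
  omega

theorem aux3 (i m a : ℕ) (hm : m ≤ 2 ^ (i + 24)) (ha : a + 2 ^ (2 / m) ≤ 2 ^ (2 / m) * (2 * m)) :
    a + 1 ≤ 2 ^ (i + 28) := by
  have h1 : 2 ^ (2 / m) ≤ 2 ^ 2 := Nat.pow_le_pow_right (by norm_num) (Nat.div_le_self _ _)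
  have h2 : 1 ≤ 2 ^ (2 / m) := Nat.one_le_two_pow
  have h3 : 2 ^ (2 / m) * (2 * m) ≤ 2 ^ 2 * (2 * m) := Nat.mul_le_mul_right _ h1
  have h4 : 2 ^ (i + 28) = 16 * 2 ^ (i + 24) := by ring
  omega

end KE

open KE

/-- KE: the number of levels. -/
theorem pf_KE (h1 : T_KA) (h2 : T_KB) (h3 : T_KC) : T_KE := by
  have hm1 : ∀ i, 1 ≤ mm i := fun i => by
    rw [mm]
    exact Nat.le_add_left _ _
  have haa0 : ∀ i, aa i 0 = mm i := fun i => by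
    rw [aa, Nat.zero_div, Nat.zero_mod, pow_zero, one_mul, add_zero]
  have hbH : ∀ i j, j ≤ Nn i → bb i j ≤ Hh i := fun i j hj => by
    have := (h1 i).2.2 j hj
    omega
  intro i
  have hT : Tt i = 2 ^ (i + 8) := by rw [Tt]
  have hT' : Tt (i + 1) = 2 * 2 ^ (i + 8) := by
    rw [Tt]
    ring
  have hH : Hh i = 2 ^ (6 * i + 110) := by rw [Hh]
  have hH' : Hh (i + 1) = 2 ^ (6 * i + 116) := by
    rw [Hh]
    congr 1
  have hN2 : 2 ≤ Nn i := by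
    have h4 := aux1 i 1 Nat.one_le_two_pow
    have h5 : 2 ≤ 2 ^ (i + 10) := by
      calc 2 = 2 ^ 1 := rfl
        _ ≤ 2 ^ (i + 10) := Nat.pow_le_pow_right (by norm_num) (by omega)
    rw [Nn]
    omega
  refine gen i (2 ^ (i + 8)) (mm i) (Nn i) (JJ i) (kk (i + 1) 0) (kk i) (fun j => (h3 i j).1)
    (hm1 i) ?_ ?_ ?_ ?_ (exp_le i) ?_ ?_ ?_
  · intro j
    rw [kk, ← hT]
    refine low _ _ _ _ _ _ hH ?_
    refine le_trans ?_ (h2 i j).2.1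
    exact Nat.le_mul_of_pos_right _ (hm1 i)
  · rw [kk, ← hT']
    refine upp _ _ _ _ _ _ hH' ?_ (hbH _ _ (Nat.zero_le _))
    rw [haa0]
    exact aux2 i _ (h1 (i + 1)).2.1
  · rw [kk, ← hT']
    have h4 := low (Tt (i + 1)) (6 * i + 116) 0 (Hh (i + 1)) (aa (i + 1) 0) (bb (i + 1) 0) hH' (by
      rw [haa0, pow_zero]
      exact hm1 _)
    rwa [add_zero] at h4
  · rw [kk, ← hT]
    refine upp _ _ _ _ _ _ hH ?_ (hbH _ _ hN2)
    exact aux3 i (mm i) _ (h1 i).2.1 (h2 i 2).2.2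
  · have h5 : 2 ^ (i + 10) = 4 * 2 ^ (i + 8) := by ring
    omega
  · rw [Nn]
    exact aux1 i _ (h1 i).2.1
  · rw [JJ]

end Pool.Agent.H54.ILV
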